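import Pool.Agent.helper66.LIN.Spec

set_option autoImplicit false

/-!
Row NPT of project lin: the field `pot` of the new configuration.
-/

namespace LSH.Lin

theorem NPT (hNSG : NSG_stmt) (hLST : LST_stmt) (hGTF : GTF_stmt) : NPT_stmt := by
  classical
  intro P L₀ σ X u t up x₁ q G hS
  obtain ⟨-, -, h3, h4⟩ := hNSG P L₀ σ X u t up x₁ q G hS
  have hL := hLST P _ σ X u t up x₁ q hS.cfg (Multiset.mem_cons_self _ _) hS.ch
  have hw := hGTF.2.2.2.2.1 G
  rw [hS.gad.shape] at hw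
  have hpot := hS.cfg.pot
  rw [Multiset.map_cons, Multiset.sum_cons] at hpot
  have hsub : avl P σ ⊆ avl P (nsig ((u, t) ::ₘ L₀) σ u x₁ G.pend) ∪
      P.filter (fun p => σ p.2 < p.1 ∧ p.1 ≤ x₁ ∧ Vis ((u, t) ::ₘ L₀) u p.2) := by
    intro p hp
    unfold avl at hp ⊢
    rw [Finset.mem_filter] at hp
    rw [Finset.mem_union, Finset.mem_filter, Finset.mem_filter]
    by_cases hv : Vis ((u, t) ::ₘ L₀) u p.2
    · rcases le_or_gt p.1 x₁ with h | h
      · exact Or.inr ⟨hp.1, hp.2, h, hv⟩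
      · exact Or.inl ⟨hp.1, lt_of_le_of_lt (h4 p.2).2 h⟩
    · refine Or.inl ⟨hp.1, ?_⟩
      rw [h3 p.2 hv]
      exact hp.2
  have hc := (Finset.card_le_card hsub).trans (Finset.card_union_le _ _)
  rw [Multiset.map_add, Multiset.sum_add]
  simp only at hpot hL hw hc ⊢
  have hpot' : BT.wt t + (Multiset.map (fun i : Pt × BT => i.2.wt) L₀).sum ≤ (avl P σ).card := hpot
  omega

end LSH.Lin
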